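import Pool.Agent.Helper74.RG.DefsG

/-!
# Block G1: smooth representations of a group with an open normal subgroup mapping onto `ℤ_p ^ s`
-/

set_option autoImplicit false
set_option linter.unusedVariables false

namespace Pool.Agent.Helper1.RG

open Pool.Agent.Helper74.RG Module

variable {p s : ℕ} [Fact p.Prime] {G : Type} [Group G]

theorem dphi_one (D : Dat p s G) : D.φ 1 = 0 := by
  have := D.mul 1 1
  rw [mul_one] at this
  exact left_eq_add.mp this

theorem dphi_inv (D : Dat p s G) (σ : D.V) : D.φ σ⁻¹ = -D.φ σ := by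
  have := D.mul σ σ⁻¹
  rw [mul_inv_cancel, dphi_one] at this
  exact (neg_eq_of_add_eq_zero_right this.symm).symm

theorem dphi_pow (D : Dat p s G) (σ : D.V) (n : ℕ) : D.φ (σ ^ n) = n • D.φ σ := by
  induction n with
  | zero => rw [pow_zero, dphi_one, zero_smul]
  | succ n ih => rw [pow_succ, D.mul, ih, succ_nsmul]

theorem coe_mem_A (D : Dat p s G) (j : ℕ) (σ : D.V) :
    (σ : G) ∈ D.A j ↔ ∀ i, (p : ℤ_[p]) ^ j ∣ D.φ σ i := by
  rw [D.mem_A]
  constructor
  · rintro ⟨_, h⟩; exact h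
  · intro h; exact ⟨σ.2, h⟩

theorem A_le_V (D : Dat p s G) {j : ℕ} {g : G} (hg : g ∈ D.A j) : g ∈ D.V := by
  rw [D.mem_A] at hg
  exact hg.1

theorem A_anti (D : Dat p s G) {a b : ℕ} (hab : a ≤ b) : D.A b ≤ D.A a := by
  intro g hg
  rw [D.mem_A] at hg ⊢
  obtain ⟨h, h1⟩ := hg
  exact ⟨h, fun i => (pow_dvd_pow _ hab).trans (h1 i)⟩

theorem comm_mem (D : Dat p s G) (v w : D.V) (j : ℕ) :
    ((w * v)⁻¹ * (v * w) : D.V).1 ∈ D.A j := by
  rw [coe_mem_A]
  intro i
  rw [D.mul, dphi_inv, D.mul, D.mul, add_comm (D.φ v), neg_add_cancel, Pi.zero_apply]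
  exact dvd_zero _

theorem t_pow_mem (D : Dat p s G) (i : Fin s) (j : ℕ) : ((D.t i : G)) ^ (p ^ j) ∈ D.A j := by
  have h1 : ((D.t i : G)) ^ (p ^ j) = ((D.t i ^ (p ^ j) : D.V) : G) := by
    rw [Subgroup.coe_pow]
  rw [h1, coe_mem_A]
  intro l
  rw [dphi_pow, D.ht, Pi.smul_apply, nsmul_eq_mul]
  push_cast
  exact Dvd.intro _ rfl

theorem dphi_list (D : Dat p s G) : ∀ (m : ℕ) (f : Fin m → D.V),
    D.φ (List.ofFn f).prod = ∑ i, D.φ (f i) := by
  intro m
  induction m with
  | zero => intro f; simp [dphi_one]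
  | succ m ih => intro f; rw [List.ofFn_succ, List.prod_cons, D.mul, ih, Fin.sum_univ_succ]

/-- the element `∏ t i ^ n i` -/
noncomputable def tprod (D : Dat p s G) (n : Fin s → ℕ) : D.V :=
  (List.ofFn fun i => D.t i ^ n i).prod

theorem tprod_coe (D : Dat p s G) (n : Fin s → ℕ) :
    ((tprod D n : D.V) : G) = (List.ofFn fun i => (D.t i : G) ^ n i).prod := by
  unfold tprod
  have key : ∀ (m : ℕ) (f : Fin m → D.V),
      (((List.ofFn f).prod : D.V) : G) = (List.ofFn fun i => (f i : G)).prod := by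
    intro m
    induction m with
    | zero => intro f; simp
    | succ m ih =>
      intro f
      rw [List.ofFn_succ, List.prod_cons, Subgroup.coe_mul, ih, List.ofFn_succ, List.prod_cons]
  rw [key]
  simp only [Subgroup.coe_pow]

theorem phi_tprod (D : Dat p s G) (n : Fin s → ℕ) (i : Fin s) :
    D.φ (tprod D n) i = (n i : ℤ_[p]) := by
  unfold tprod
  rw [dphi_list, Finset.sum_apply, Finset.sum_eq_single i]
  · rw [dphi_pow, D.ht, Pi.smul_apply, Pi.single_eq_same, nsmul_eq_mul, mul_one]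
  · intro l _ hl
    rw [dphi_pow, D.ht, Pi.smul_apply, Pi.single_eq_of_ne (Ne.symm hl), smul_zero]
  · intro h; exact absurd (Finset.mem_univ i) h

theorem approx (D : Dat p s G) (v : D.V) (j : ℕ) :
    ∃ n : Fin s → ℕ, (∀ i, n i < p ^ j) ∧ (∀ i, (p : ℤ_[p]) ^ j ∣ D.φ v i - (n i : ℤ_[p])) ∧
      ∃ a : D.V, (a : G) ∈ D.A j ∧ v = tprod D n * a := by
  refine ⟨fun i => (D.φ v i).appr j, fun i => PadicInt.appr_lt _ _, fun i => ?_, ?_⟩
  · rw [← Ideal.mem_span_singleton]
    exact PadicInt.appr_spec j (D.φ v i)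
  · refine ⟨(tprod D fun i => (D.φ v i).appr j)⁻¹ * v, ?_, ?_⟩
    · rw [coe_mem_A]
      intro i
      rw [D.mul, dphi_inv, Pi.add_apply, Pi.neg_apply, phi_tprod, neg_add_eq_sub,
        ← Ideal.mem_span_singleton]
      exact PadicInt.appr_spec j (D.φ v i)
    · rw [mul_inv_cancel_left]

section

variable {H : Type} [AddCommGroup H] [Module (ZMod p) H] {ρ : G →* Module.End (ZMod p) H}

theorem end_sub_one_pow (u : Module.End (ZMod p) H) (n : ℕ) :
    (u - 1) ^ (p ^ n) = u ^ (p ^ n) - 1 := by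
  by_cases hs : Subsingleton H
  · ext x; exact Subsingleton.elim _ _
  · rw [not_subsingleton_iff_nontrivial] at hs
    have : CharP (Module.End (ZMod p) H) p := charP_of_injective_algebraMap
          (algebraMap (ZMod p) (Module.End (ZMod p) H)).injective p
    rw [sub_pow_char_pow_of_commute (p := p) n (Commute.one_right u), one_pow]

theorem end_sub_one_pred (u : Module.End (ZMod p) H) :
    (u - 1) ^ (p - 1) = ∑ a : Fin p, u ^ (a : ℕ) := by
  have hp : 1 ≤ p := (Fact.out : p.Prime).one_lt.le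
  have h1 : ((Polynomial.X - 1 : Polynomial (ZMod p))) ^ (p - 1) =
      ∑ a ∈ Finset.range p, (Polynomial.X : Polynomial (ZMod p)) ^ a := by
    have hne : (Polynomial.X - 1 : Polynomial (ZMod p)) ≠ 0 := by
      rw [← Polynomial.C_1]
      exact Polynomial.X_sub_C_ne_zero 1
    apply mul_left_cancel₀ hne
    rw [← pow_succ', Nat.sub_add_cancel hp, mul_comm, geom_sum_mul, sub_pow_char, one_pow]
  have h2 := congrArg (Polynomial.aeval u) h1
  rw [map_pow, map_sub, Polynomial.aeval_X, map_one, map_sum] at h2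
  simp only [map_pow, Polynomial.aeval_X] at h2
  rw [h2, Finset.sum_range]

theorem T_pow (D : Dat p s G) (ρ : G →* Module.End (ZMod p) H) (i : Fin s) (n : ℕ) :
    D.T ρ i ^ (p ^ n) = ρ ((D.t i : G) ^ (p ^ n)) - 1 := by
  unfold Dat.T
  rw [end_sub_one_pow, map_pow]

/-- G1a -/
theorem Sm.ln {D : Dat p s G} (hs : Sm D ρ) : LN (D.T ρ) := by
  refine ⟨?_, ?_⟩
  · intro i j h
    have hkey : ρ (D.t i : G) (ρ (D.t j : G) h) = ρ (D.t j : G) (ρ (D.t i : G) h) := by
      obtain ⟨l, hl⟩ := hs h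
      have h1 := hl _ (comm_mem D (D.t i) (D.t j) l)
      have h2 : (D.t i : G) * (D.t j : G) =
          ((D.t j : G) * (D.t i : G)) *
            (((D.t j * D.t i)⁻¹ * (D.t i * D.t j) : D.V) : G) := by
        push_cast
        rw [mul_inv_cancel_left]
      rw [← Module.End.mul_apply, ← map_mul, h2, map_mul, Module.End.mul_apply, h1, map_mul,
        Module.End.mul_apply]
    unfold Dat.T
    simp only [LinearMap.sub_apply, Module.End.one_apply, map_sub]
    rw [hkey]
    abel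
  · intro i h
    obtain ⟨l, hl⟩ := hs h
    refine ⟨p ^ l, ?_⟩
    rw [T_pow, LinearMap.sub_apply, Module.End.one_apply, hl _ (t_pow_mem D i l), sub_self]

theorem T_apply_eq_zero (D : Dat p s G) (i : Fin s) (h : H) :
    D.T ρ i h = 0 ↔ ρ (D.t i : G) h = h := by
  unfold Dat.T
  rw [LinearMap.sub_apply, Module.End.one_apply, sub_eq_zero]

theorem fix_list {m : ℕ} : ∀ (f : Fin m → G) (h : H), (∀ i, ρ (f i) h = h) →
    ρ (List.ofFn f).prod h = h := by
  induction m with
  | zero => intro f h _; simp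
  | succ m ih =>
    intro f h hf
    rw [List.ofFn_succ, List.prod_cons, map_mul, Module.End.mul_apply, ih _ _ (fun i => hf i.succ),
      hf 0]

theorem fix_pow {g : G} {h : H} (hg : ρ g h = h) (n : ℕ) : ρ (g ^ n) h = h := by
  induction n with
  | zero => simp
  | succ n ih => rw [pow_succ, map_mul, Module.End.mul_apply, hg, ih]

/-- G1c -/
theorem Sm.box_eq {D : Dat p s G} (hs : Sm D ρ) (j : ℕ) :
    box (D.T ρ) (p ^ j) = fixed ρ (D.A j) := by
  ext h
  rw [mem_box, mem_fixed]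
  constructor
  · intro hb a ha
    obtain ⟨l, hl⟩ := hs h
    have haV : a ∈ D.V := A_le_V D ha
    obtain ⟨n, -, hn2, a', ha', hva⟩ := approx D ⟨a, haV⟩ (max l j)
    have h1 : a = (tprod D n : G) * (a' : G) := congrArg Subtype.val hva
    rw [h1, map_mul, Module.End.mul_apply, hl _ (A_anti D (le_max_left _ _) ha'), tprod_coe]
    apply fix_list
    intro i
    have h2 : (p : ℤ_[p]) ^ j ∣ (n i : ℤ_[p]) := by
      have h3 : (p : ℤ_[p]) ^ j ∣ D.φ ⟨a, haV⟩ i := (coe_mem_A D j ⟨a, haV⟩).mp ha i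
      have h4 := (pow_dvd_pow (p : ℤ_[p]) (le_max_right l j)).trans (hn2 i)
      exact (dvd_sub_right h3).mp h4
    have h5 : p ^ j ∣ n i := by
      have h6 : ((p ^ j : ℕ) : ℤ) ∣ (n i : ℤ) := by
        have h7 : ((p ^ j : ℕ) : ℤ) = (p : ℤ) ^ j := by push_cast; rfl
        rw [h7, ← PadicInt.norm_int_le_pow_iff_dvd, PadicInt.norm_le_pow_iff_mem_span_pow,
          Ideal.mem_span_singleton]
        exact_mod_cast h2
      exact_mod_cast h6
    obtain ⟨c, hc⟩ := h5
    rw [hc, pow_mul]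
    apply fix_pow
    have h8 := hb i
    rw [T_pow, LinearMap.sub_apply, Module.End.one_apply, sub_eq_zero] at h8
    exact h8
  · intro hf i
    rw [T_pow, LinearMap.sub_apply, Module.End.one_apply, hf _ (t_pow_mem D i j), sub_self]

/-- G1b -/
theorem Sm.inv_eq {D : Dat p s G} (hs : Sm D ρ) : inv (D.T ρ) = fixed ρ D.V := by
  have h0 : D.A 0 = D.V := by
    ext g
    constructor
    · exact A_le_V D
    · intro hg
      rw [D.mem_A]
      exact ⟨hg, fun i => by rw [pow_zero]; exact one_dvd _⟩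
  have h1 := Sm.box_eq hs 0
  rw [h0, pow_zero] at h1
  rw [← h1]
  unfold inv box
  simp only [pow_one]

theorem list_ofFn_sum {R : Type} [Semiring R] {q : ℕ} : ∀ (m : ℕ) (f : Fin m → Fin q → R),
    (List.ofFn fun i => ∑ a, f i a).prod =
      ∑ α : Fin m → Fin q, (List.ofFn fun i => f i (α i)).prod := by
  intro m
  induction m with
  | zero => intro f; simp
  | succ m ih =>
    intro f
    rw [List.ofFn_succ, List.prod_cons, ih, Finset.sum_mul_sum,
      ← Fintype.sum_equiv (Fin.consEquiv fun _ => Fin q) (fun x : Fin q × (Fin m → Fin q) =>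
        f 0 x.1 * (List.ofFn fun i => f i.succ (x.2 i)).prod), Fintype.sum_prod_type]
    intro x
    rw [List.ofFn_succ, List.prod_cons]
    rfl

/-- G1d -/
theorem Sm.mon_eq {D : Dat p s G} (hs : Sm D ρ) {z : H} (hz : z ∈ box (D.T ρ) p) :
    mon (D.T ρ) (fun _ => p - 1) z =
      ∑ α : Fin s → Fin p, ρ ((List.ofFn fun i => ((D.t i : G)) ^ (α i : ℕ)).prod) z := by
  have h1 : mon (D.T ρ) (fun _ => p - 1) =
      ∑ α : Fin s → Fin p, ρ ((List.ofFn fun i => ((D.t i : G)) ^ (α i : ℕ)).prod) := by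
    unfold mon Dat.T
    simp only [end_sub_one_pred]
    rw [list_ofFn_sum]
    apply Finset.sum_congr rfl
    intro α _
    rw [map_list_prod, List.map_ofFn]
    congr 2
    funext i
    rw [Function.comp_apply, map_pow]
  rw [h1, LinearMap.sum_apply]

end

end Pool.Agent.Helper1.RG
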